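import Pool.Agent.Helper96.WR.B2
import Pool.Agent.Helper48.FB.Defs

set_option autoImplicit false
set_option linter.unusedVariables false

/-! Project FB: piece B2. -/

namespace Pool.Agent.Helper28.FB

open Finset
open Pool.Agent.Helper3.Thin (dig und off Lab GoodSet)
open Pool.Agent.Helper53.WR
open Pool.Agent.Helper96.WR (JJ BB BB_inl BB_inr mass_inl mass_inr)

open Classical in
/-- The bad sets, with the sets for the multiplicities of the values. -/
noncomputable def BC {q : ℕ} (Γ : Finset (ZMod q × ZMod q)) (T O : Finset ℕ) (S : ℕ)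
    (τ : ZMod q × ZMod q → ZMod q × ZMod q) :
    JJ ⊕ ℕ → ((ZMod q × ZMod q) × (ZMod q × ZMod q)) → Finset ℕ :=
  Sum.elim (BB Γ T O S τ) (fun s p => if p ∈ Γ ×ˢ Γ then {s} else ∅)

/-- FB-B2 (choice of `σ`, with the multiplicity of every value). -/
theorem sigma_select2 {q : ℕ} [Fact q.Prime] (Γ : Finset (ZMod q × ZMod q))
    (hΓ : Γ.card ≤ 3 * q) (T O : Finset ℕ) (S : ℕ) (hS : 0 < S) (x H W N t0 yS : ℕ)
    (Mod : Finset ℕ)
    (hMod : ∀ m ∈ Mod, 0 < m) (τ : ZMod q × ZMod q → ZMod q × ZMod q)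
    (hW : ∀ a : ℕ, (T.filter (fun t => a ≤ t ∧ t < a + S)).card ≤ W)
    (hQ : ∀ ν : ℕ, (((Γ ×ˢ Γ) ×ˢ O).filter (fun y =>
        (und y.1.1 (y.1.2 + τ y.1.1) + y.2) % q ^ 4 = ν % q ^ 4)).card ≤ x * H)
    (hM : ∀ m ∈ Mod, ∀ r : ℕ, ((((Γ ×ˢ Γ) ×ˢ ((range S) ×ˢ T)).filter (fun y =>
        (und y.1.1 (y.1.2 + τ y.1.1) + q ^ 4 * (S + y.2.1 + y.2.2)) % m = r % m)).card : ℝ)
          ≤ x * (T.card * ((q : ℝ) ^ 2 * S / m + 1)))
    (AX : ℝ) (hAX : 1 ≤ AX)
    (hX : (N : ℝ) * 4096 * (Real.exp (AX * ((x : ℝ) * H * W / S)) / AX ^ t0) < 1 / 4)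
    (AM : ℕ → ℝ) (hAM : ∀ m ∈ Mod, 1 ≤ AM m) (y : ℕ → ℕ)
    (hY : ∑ m ∈ Mod, (m : ℝ) * (Real.exp (AM m *
      ((x : ℝ) * (T.card * ((q : ℝ) ^ 2 / m + 1 / S)))) / AM m ^ y m) < 1 / 2)
    (AS : ℝ) (hAS : 1 ≤ AS)
    (hSS : (S : ℝ) * (Real.exp (AS * (9 * (q : ℝ) ^ 2 / S)) / AS ^ yS) < 1 / 4) :
    ∃ σ : (ZMod q × ZMod q) × (ZMod q × ZMod q) → ℕ, (∀ p, σ p < S) ∧
      (∀ n < N, ∀ ε : Lab, ((Γ ×ˢ Γ).filter (fun p => ∃ o ∈ O, ∃ t ∈ T,
        elt S τ σ p ε t + o = n)).card < t0) ∧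
      (∀ m ∈ Mod, ∀ r : ℕ, ((Γ ×ˢ Γ).filter (fun p => ∃ t ∈ T,
        (und p.1 (p.2 + τ p.1) + q ^ 4 * (S + σ p + t)) % m = r % m)).card < y m) ∧
      ∀ s, ((Γ ×ˢ Γ).filter (fun p => σ p = s)).card ≤ yS := by
  classical
  have hSr : (0 : ℝ) < S := by exact_mod_cast hS
  obtain ⟨σ, hσ, hcount⟩ := Pool.Agent.Helper82.WR.sigma_exists
    (ι := (ZMod q × ZMod q) × (ZMod q × ZMod q)) S hS
    (J := JJ ⊕ ℕ)
    ((((range N) ×ˢ (univ : Finset Lab)).disjSum (Mod.sigma (fun m => range m))).disjSum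
      (range S))
    (BC Γ T O S τ)
    (by
      intro j hj i
      rcases j with (ne | mr) | s
      · show BB Γ T O S τ (Sum.inl ne) i ⊆ range S
        rw [BB_inl]
        split_ifs
        · exact filter_subset _ _
        · exact empty_subset _
      · show BB Γ T O S τ (Sum.inr mr) i ⊆ range S
        rw [BB_inr]
        split_ifs
        · exact filter_subset _ _
        · exact empty_subset _
      · rw [Finset.inr_mem_disjSum] at hj
        show (if i ∈ Γ ×ˢ Γ then ({s} : Finset ℕ) else ∅) ⊆ range S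
        split_ifs
        · exact Finset.singleton_subset_iff.2 hj
        · exact empty_subset _)
    (Sum.elim (Sum.elim (fun _ => (x : ℝ) * H * W / S)
      (fun mr => (x : ℝ) * (T.card * ((q : ℝ) ^ 2 / mr.1 + 1 / S))))
      (fun _ => 9 * (q : ℝ) ^ 2 / S))
    (Sum.elim (Sum.elim (fun _ => AX) (fun mr => AM mr.1)) (fun _ => AS))
    (Sum.elim (Sum.elim (fun _ => t0) (fun mr => y mr.1)) (fun _ => yS))
    (by
      intro j hj
      rcases j with (ne | mr) | s
      · simpa using hAX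
      · rw [Finset.inl_mem_disjSum, Finset.inr_mem_disjSum, mem_sigma] at hj
        simpa using hAM _ hj.1
      · simpa using hAS)
    (by
      intro j hj
      rcases j with (ne | mr) | s
      · simp only [Sum.elim_inl]
        rw [div_mul_cancel₀ _ hSr.ne']
        exact_mod_cast mass_inl Γ T O S x H W τ hW hQ ne
      · rw [Finset.inl_mem_disjSum, Finset.inr_mem_disjSum, mem_sigma] at hj
        simp only [Sum.elim_inr, Sum.elim_inl]
        have h1 := mass_inr Γ T O S τ mr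
        have h2 := hM mr.1 hj.1 mr.2
        have h3 : (x : ℝ) * (T.card * ((q : ℝ) ^ 2 / mr.1 + 1 / S)) * S =
            x * (T.card * ((q : ℝ) ^ 2 * S / mr.1 + 1)) := by
          field_simp
        rw [h3]
        refine le_trans ?_ h2
        exact_mod_cast h1
      · simp only [Sum.elim_inr]
        rw [div_mul_cancel₀ _ hSr.ne']
        have h1 : ∀ p : (ZMod q × ZMod q) × (ZMod q × ZMod q),
            ((BC Γ T O S τ (Sum.inr s) p).card : ℝ) = if p ∈ Γ ×ˢ Γ then 1 else 0 := by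
          intro p
          show ((if p ∈ Γ ×ˢ Γ then ({s} : Finset ℕ) else ∅).card : ℝ) = _
          split_ifs <;> simp
        rw [Finset.sum_congr rfl (fun p _ => h1 p), Finset.sum_ite_mem, Finset.univ_inter,
          Finset.sum_const, card_product, nsmul_eq_mul, mul_one]
        have h2 : Γ.card * Γ.card ≤ 9 * q ^ 2 := by
          calc Γ.card * Γ.card ≤ (3 * q) * (3 * q) := Nat.mul_le_mul hΓ hΓ
            _ = 9 * q ^ 2 := by ring
        exact_mod_cast h2)
    (by
      rw [Finset.sum_disjSum, Finset.sum_disjSum, Finset.sum_sigma]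
      simp only [Sum.elim_inl, Sum.elim_inr, Finset.sum_const, nsmul_eq_mul, card_range,
        card_product]
      have h4096 : (univ : Finset Lab).card = 4096 := by
        simp [Lab]
      rw [h4096]
      push_cast
      linarith)
  refine ⟨σ, hσ, ?_, ?_, ?_⟩
  · intro n hn ε
    have h := hcount (Sum.inl (Sum.inl (n, ε))) (by
      rw [Finset.inl_mem_disjSum, Finset.inl_mem_disjSum, mem_product, mem_range]
      exact ⟨hn, mem_univ _⟩)
    simp only [Sum.elim_inl] at h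
    refine lt_of_le_of_lt (card_le_card ?_) h
    intro p hp
    rw [mem_filter] at hp
    obtain ⟨hp, o, ho, t, ht, he⟩ := hp
    rw [mem_filter]
    refine ⟨mem_univ _, ?_⟩
    show σ p ∈ BB Γ T O S τ (Sum.inl (n, ε)) p
    rw [BB_inl]
    rw [if_pos hp, mem_filter, mem_range]
    exact ⟨hσ p, o, ho, t, ht, he⟩
  · intro m hm r
    have h := hcount (Sum.inl (Sum.inr ⟨m, r % m⟩)) (by
      rw [Finset.inl_mem_disjSum, Finset.inr_mem_disjSum, mem_sigma, mem_range]
      exact ⟨hm, Nat.mod_lt _ (hMod m hm)⟩)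
    simp only [Sum.elim_inr, Sum.elim_inl] at h
    refine lt_of_le_of_lt (card_le_card ?_) h
    intro p hp
    rw [mem_filter] at hp
    obtain ⟨hp, t, ht, he⟩ := hp
    rw [mem_filter]
    refine ⟨mem_univ _, ?_⟩
    show σ p ∈ BB Γ T O S τ (Sum.inr ⟨m, r % m⟩) p
    rw [BB_inr]
    rw [if_pos hp, mem_filter, mem_range]
    exact ⟨hσ p, t, ht, by simpa using he⟩
  · intro s
    by_cases hs : s < S
    · have h := hcount (Sum.inr s) (by
        rw [Finset.inr_mem_disjSum, mem_range]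
        exact hs)
      simp only [Sum.elim_inr] at h
      refine le_of_lt (lt_of_le_of_lt (card_le_card ?_) h)
      intro p hp
      rw [mem_filter] at hp
      rw [mem_filter]
      refine ⟨mem_univ _, ?_⟩
      show σ p ∈ (if p ∈ Γ ×ˢ Γ then ({s} : Finset ℕ) else ∅)
      rw [if_pos hp.1, mem_singleton]
      exact hp.2
    · have h0 : (Γ ×ˢ Γ).filter (fun p => σ p = s) = ∅ := by
        apply Finset.filter_eq_empty_iff.2
        intro p _ hp
        exact hs (hp ▸ hσ p)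
      rw [h0, card_empty]
      exact Nat.zero_le _

end Pool.Agent.Helper28.FB
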